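import Pool.Agent.Helper1.TE.Goals2

/-!
# PROJECT TE, packet FC1: one big step of the machine
-/

set_option autoImplicit false

namespace Pool.Agent.Helper97.TE

open Pool.Agent.Helper1.TE
open Pool.Agent.Helper65.LinSpace (dig tab nrec ifz eq01 le01 lt01 capPow)

/-- the next state in mode 7 if the guessed bit is allowed. -/
theorem nx_main (ok : ℕ → ℕ → ℕ) (tst : ℕ → ℕ) (mal : ℕ) (w : List Bool)
    (h b u W τ g v γ : ℕ) (C : C3)
    (hγ : γ * (1 - gqM (mainS h b u W τ g v C)) = 0) :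
    (machM ok tst mal).nx w (mainS h b u W τ g v C) γ =
    cif (2 * b - u)
      (cif (3 * b - u)
        (cif (bigT h b W tst τ v C) rejS
          (cif ((τ + 1) / 5 ^ h)
            (mainS h b 0 W (τ + 1) 0 0 (bigC h b W τ g v C))
            accS))
        (mainS h b (u + 1) W τ g
          (2 * v + (codeB w[h + b + 2 + blkM h b W τ g * b + (u - 2 * b)]? - 1)) C))
      (mainS h b (u + 1) W τ (2 * g + γ) v C) := by
  change nextM ok tst mal (mainS h b u W τ g v C)
    (codeB w[addrM (mainS h b u W τ g v C)]?) γ = _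
  unfold nextM
  rw [hγ]
  rfl

theorem gq_eq (h b u W τ g v : ℕ) (C : C3) :
    gqM (mainS h b u W τ g v C) = lt01 u (2 * b) * eq01 (kindN h τ) 1 := by
  change eq01 7 7 * lt01 u (2 * b) * eq01 (kindN h τ) 1 = _
  rw [show eq01 7 7 = 1 from rfl, one_mul]

theorem step_guess (ok : ℕ → ℕ → ℕ) (tst : ℕ → ℕ) (mal : ℕ) (w : List Bool)
    {h b u W τ g v γ : ℕ} {C : C3} (hu : u < 2 * b)
    (hγ : γ = 0 ∨ kindN h τ = 1) :
    (machM ok tst mal).nx w (mainS h b u W τ g v C) γ = mainS h b (u + 1) W τ (2 * g + γ) v C := by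
  rw [nx_main]
  · have : 2 * b - u ≠ 0 := by omega
    unfold cif
    rw [if_neg this]
  · rcases hγ with rfl | hk
    · rw [zero_mul]
    · rw [gq_eq, hk, show eq01 1 1 = 1 from rfl, mul_one]
      unfold lt01
      rw [if_pos hu]
      rfl

theorem step_read (ok : ℕ → ℕ → ℕ) (tst : ℕ → ℕ) (mal : ℕ) (w : List Bool)
    {h b u W τ g v : ℕ} {C : C3} (hu : 2 * b ≤ u) (hu' : u < 3 * b) :
    (machM ok tst mal).nx w (mainS h b u W τ g v C) 0 = mainS h b (u + 1) W τ g
      (2 * v + (codeB w[h + b + 2 + blkM h b W τ g * b + (u - 2 * b)]? - 1)) C := by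
  rw [nx_main _ _ _ _ _ _ _ _ _ _ _ _ _ (zero_mul _)]
  have h1 : 2 * b - u = 0 := by omega
  have h2 : 3 * b - u ≠ 0 := by omega
  unfold cif
  rw [if_pos h1, if_neg h2]

theorem step_last (ok : ℕ → ℕ → ℕ) (tst : ℕ → ℕ) (mal : ℕ) (w : List Bool)
    {h b W τ g v : ℕ} {C : C3} (hb : bigT h b W tst τ v C ≠ 0) (hτ : τ < 5 ^ h) :
    (machM ok tst mal).nx w (mainS h b (3 * b) W τ g v C) 0 =
      if τ + 1 < 5 ^ h then mainS h b 0 W (τ + 1) 0 0 (bigC h b W τ g v C) else accS := by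
  rw [nx_main _ _ _ _ _ _ _ _ _ _ _ _ _ (zero_mul _)]
  have h1 : 2 * b - 3 * b = 0 := by omega
  have h2 : 3 * b - 3 * b = 0 := by omega
  unfold cif
  rw [if_pos h1, if_pos h2, if_neg hb]
  by_cases h3 : τ + 1 < 5 ^ h
  · rw [if_pos h3, if_pos (Nat.div_eq_of_lt h3)]
  · have h4 : τ + 1 = 5 ^ h := by omega
    rw [if_neg h3, h4, Nat.div_self (by positivity), if_neg one_ne_zero]

theorem code_sub (w : List Bool) (k : ℕ) : codeB w[k]? - 1 = (w.getD k false).toNat := by
  rw [List.getD_eq_getElem?_getD]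
  cases w[k]? with
  | none => rfl
  | some a => cases a <;> rfl

theorem word_step (w : List Bool) (k i t : ℕ) :
    word (w.drop k) i (t + 1) = 2 * word (w.drop k) i t + (codeB w[k + i + t]? - 1) := by
  rw [code_sub]
  change 2 * word (w.drop k) i t + ((w.drop k).getD (i + t) false).toNat = _
  rw [List.getD_eq_getElem?_getD, List.getD_eq_getElem?_getD, List.getElem?_drop, add_assoc]

/-- the guessing phase. -/
theorem phase_guess (ok : ℕ → ℕ → ℕ) (tst : ℕ → ℕ) (mal : ℕ) (w : List Bool)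
    {h b W τ : ℕ} {C : C3} (G : ℕ) (hG : G < 2 ^ (2 * b)) (hk : G = 0 ∨ kindN h τ = 1)
    (hR : (machM ok tst mal).Reach w (mainS h b 0 W τ 0 0 C)) :
    ∀ u ≤ 2 * b, (machM ok tst mal).Reach w (mainS h b u W τ (G / 2 ^ (2 * b - u)) 0 C) := by
  intro u
  induction u with
  | zero =>
    intro _
    rw [Nat.sub_zero, Nat.div_eq_of_lt hG]
    exact hR
  | succ u ih =>
    intro hu
    have h1 := ih (by omega)
    refine h1.tail ⟨(G / 2 ^ (2 * b - (u + 1))) % 2, Nat.mod_lt _ (by norm_num), ?_⟩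
    rw [step_guess ok tst mal w (by omega)]
    · have e1 : 2 * b - u = (2 * b - (u + 1)) + 1 := by omega
      have e2 : G / 2 ^ (2 * b - u) = G / 2 ^ (2 * b - (u + 1)) / 2 := by
        rw [e1, pow_succ, Nat.div_div_eq_div_mul]
      rw [e2, Nat.div_add_mod]
    · rcases hk with h0 | h0
      · left
        rw [h0, Nat.zero_div]
      · exact Or.inr h0

/-- the reading phase. -/
theorem phase_read (ok : ℕ → ℕ → ℕ) (tst : ℕ → ℕ) (mal : ℕ) (w : List Bool)
    {h b W τ g : ℕ} {C : C3}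
    (hR : (machM ok tst mal).Reach w (mainS h b (2 * b) W τ g 0 C)) :
    ∀ t ≤ b, (machM ok tst mal).Reach w (mainS h b (2 * b + t) W τ g
      (word (w.drop (h + b + 2)) (blkM h b W τ g * b) t) C) := by
  intro t
  induction t with
  | zero =>
    intro _
    exact hR
  | succ t ih =>
    intro ht
    have h1 := ih (by omega)
    refine h1.tail ⟨0, by norm_num, ?_⟩
    rw [step_read ok tst mal w (by omega) (by omega), word_step]
    have e : 2 * b + t - 2 * b = t := by omega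
    rw [e]
    rfl

theorem gFC1 : GoalFC1 := by
  intro hPB hCT hEB hEC hED hEE ok tst mal w h b τ a a' C F hF hτ ha ha' hR hop
  obtain ⟨⟨hpre, hz, hh1, hb1, hok⟩, hlen⟩ := hF
  obtain ⟨p1, p2, p3, p4, p5, p6, p7, p8, p9, p10⟩ := hPB h b hh1 hb1
  set W := 2 ^ EP h b with hW
  set k := kindN h τ with hkd
  obtain ⟨⟨q1, q2, q3, q4, q5, q6, q7, q8⟩, _⟩ :=
    hED (gadM h b W) tst (leafV h b (w.drop (h + b + 2))) (tabV h b (w.drop (h + b + 2)))
      h τ a a' W (toF C) hτ p8
  have hW2 : capPow 2 h W = 2 ^ h := by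
    unfold capPow
    apply min_eq_left
    have : 2 ^ h ≤ 2 ^ (h + 1) := Nat.pow_le_pow_right (by norm_num) (by omega)
    omega
  have hW4 : capPow 4 b W = 4 ^ b := by
    unfold capPow
    apply min_eq_left
    omega
  -- the guess
  obtain ⟨G, hG, hGk, hG1, hopG⟩ : ∃ G : ℕ, G < 2 ^ (2 * b) ∧ (G = 0 ∨ k = 1) ∧
      (k = 1 → G / 2 ^ b = a ∧ G % 2 ^ b = a') ∧
      opM tst h b w τ (G / 2 ^ b) (G % 2 ^ b) (toF C) = some F := by
    by_cases hk1 : k = 1
    · have e1 : (2 ^ b * a + a') / 2 ^ b = a := by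
        rw [Nat.mul_add_div (by positivity), Nat.div_eq_of_lt ha', add_zero]
      have e2 : (2 ^ b * a + a') % 2 ^ b = a' := by
        rw [Nat.mul_add_mod, Nat.mod_eq_of_lt ha']
      refine ⟨2 ^ b * a + a', ?_, Or.inr hk1, fun _ => ⟨e1, e2⟩, ?_⟩
      · have e3 : 2 ^ (2 * b) = 2 ^ b * 2 ^ b := by rw [two_mul, pow_add]
        rw [e3]
        have : 2 ^ b * (a + 1) ≤ 2 ^ b * 2 ^ b := Nat.mul_le_mul_left _ ha
        rw [mul_add, mul_one] at this
        omega
      · rw [e1, e2]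
        exact hop
    · refine ⟨0, by positivity, Or.inl rfl, fun h => absurd h hk1, ?_⟩
      have e1 := (hED (gadM h b W) tst (leafV h b (w.drop (h + b + 2)))
        (tabV h b (w.drop (h + b + 2))) h τ a a' W (toF C) hτ p8).2
      have e2 := (hED (gadM h b W) tst (leafV h b (w.drop (h + b + 2)))
        (tabV h b (w.drop (h + b + 2))) h τ (0 / 2 ^ b) (0 % 2 ^ b) W (toF C) hτ p8).2
      rw [← hkd, if_neg hk1] at e1 e2
      unfold opM at hop ⊢
      rw [← hW] at hop ⊢
      rw [e2, ← e1]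
      exact hop
  set g := G with hg
  set v := word (w.drop (h + b + 2)) (blkM h b W τ g * b) b with hv
  have hR1 := phase_guess ok tst mal w g hG hGk hR (2 * b) le_rfl
  rw [Nat.sub_self, pow_zero, Nat.div_one] at hR1
  have hR2 := phase_read ok tst mal w hR1 b le_rfl
  rw [← hv] at hR2
  have e3 : 2 * b + b = 3 * b := by omega
  rw [e3] at hR2
  have hee := hEE hCT hEB hEC hED tst (leafV h b (w.drop (h + b + 2)))
    (tabV h b (w.drop (h + b + 2))) h b W τ g v C p4 p5 hτ p8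
    (fun hk0 => by
      rw [hv]
      unfold leafV blkM
      rw [hk0, hW2]
      rfl)
    (fun hk1 => by
      rw [hv]
      unfold tabV blkM
      rw [hk1, hW2, hW4, Nat.div_add_mod]
      rfl)
  unfold opM at hopG
  rw [← hW, hee] at hopG
  have hbT : bigT h b W tst τ v C ≠ 0 := by
    intro h0
    rw [if_pos h0] at hopG
    exact absurd hopG (by simp)
  rw [if_neg hbT] at hopG
  refine ⟨bigC h b W τ g v C, Option.some.inj hopG, ?_⟩
  refine hR2.tail ⟨0, by norm_num, ?_⟩
  rw [step_last ok tst mal w hbT hτ]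

end Pool.Agent.Helper97.TE
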